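import Pool.Agent.Helper19.Un.Stmts
import Pool.Agent.Helper77.Lor.WIR

set_option autoImplicit false

/-!
# Module ABEL: Wirtinger inequality for functions which do not depend on the central variable
-/

namespace Pool.Agent.Helper19.Un

open MeasureTheory Topology
open scoped ComplexConjugate

noncomputable section

variable {m : ℕ}

/-- the linear part of the parametrisation of the cell -/
def abel_L (β : Fin (2 * m) → E m) : (Fin (2 * m) → ℝ) →L[ℝ] E m :=
  ∑ i, (ContinuousLinearMap.proj (R := ℝ) (φ := fun _ : Fin (2 * m) => ℝ) i).smulRight (β i)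

theorem abel_L_apply (β : Fin (2 * m) → E m) (x : Fin (2 * m) → ℝ) :
    abel_L β x = ∑ i, x i • β i := by
  unfold abel_L
  rw [sum_apply]
  rfl

theorem abel_L_single (β : Fin (2 * m) → E m) (i : Fin (2 * m)) :
    abel_L β (Pi.single i 1) = β i := by
  rw [abel_L_apply, Finset.sum_eq_single i]
  · simp
  · intro j _ hj
    simp [hj]
  · intro h
    exact absurd (Finset.mem_univ i) h

theorem abel_cellpt (β : Fin (2 * m) → E m) (c t u : ℝ) (x : Fin (2 * m) → ℝ) :
    cellpt β c (x, t) u =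
      (((-(u + ‖abel_L β x‖ ^ 2) / 2 : ℝ) : ℂ) + ((c * t : ℝ) : ℂ) * Complex.I, abel_L β x) := by
  rw [abel_L_apply]
  unfold cellpt
  refine Prod.ext ?_ rfl
  apply Complex.ext
  · simp only [Complex.add_re, Complex.ofReal_re, Complex.mul_re, Complex.I_re, mul_zero,
      Complex.ofReal_im, Complex.I_im, mul_one, sub_self, add_zero]
  · simp only [Complex.add_im, Complex.ofReal_im, Complex.mul_im, Complex.ofReal_re,
      Complex.I_im, mul_one, Complex.I_re, mul_zero, add_zero, zero_add]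

theorem abel_cellpt_mem (β : Fin (2 * m) → E m) (c t : ℝ) {u : ℝ} (hu : 0 < u)
    (x : Fin (2 * m) → ℝ) : cellpt β c (x, t) u ∈ SD m := by
  show 0 < hgt _
  rw [hgt_cellpt]
  exact hu

theorem abel_contDiff (β : Fin (2 * m) → E m) (c t u : ℝ) :
    ContDiff ℝ 1 (fun x : Fin (2 * m) → ℝ => cellpt β c (x, t) u) := by
  have e : (fun x : Fin (2 * m) → ℝ => cellpt β c (x, t) u) = fun x =>
      (((-(u + ‖abel_L β x‖ ^ 2) / 2 : ℝ) : ℂ) + ((c * t : ℝ) : ℂ) * Complex.I,
        abel_L β x) := by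
    funext x
    exact abel_cellpt β c t u x
  rw [e]
  refine ContDiff.prodMk ?_ (abel_L β).contDiff
  refine ContDiff.add ?_ contDiff_const
  have h1 : ContDiff ℝ 1 (fun x : Fin (2 * m) → ℝ => ‖abel_L β x‖ ^ 2) :=
    ContDiff.norm_sq ℝ (abel_L β).contDiff
  have h2 : ContDiff ℝ 1 (fun x : Fin (2 * m) → ℝ => -(u + ‖abel_L β x‖ ^ 2) / 2) :=
    ((contDiff_const.add h1).neg).div_const _
  exact Complex.ofRealCLM.contDiff.comp h2

theorem abel_hasFDerivAt (β : Fin (2 * m) → E m) (c t u : ℝ) (x : Fin (2 * m) → ℝ) :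
    HasFDerivAt (fun x : Fin (2 * m) → ℝ => cellpt β c (x, t) u)
      ((Complex.ofRealCLM.comp (-((innerSL ℝ (abel_L β x)).comp (abel_L β)))).prod
        (abel_L β)) x := by
  have e : (fun x : Fin (2 * m) → ℝ => cellpt β c (x, t) u) = fun x =>
      (((-(u + ‖abel_L β x‖ ^ 2) / 2 : ℝ) : ℂ) + ((c * t : ℝ) : ℂ) * Complex.I,
        abel_L β x) := by
    funext x
    exact abel_cellpt β c t u x
  rw [e]
  refine HasFDerivAt.prodMk ?_ (abel_L β).hasFDerivAt
  refine HasFDerivAt.add_const _ ?_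
  have h1 : HasFDerivAt (fun x : Fin (2 * m) → ℝ => ‖abel_L β x‖ ^ 2)
      (2 • (innerSL ℝ (abel_L β x)).comp (abel_L β)) x :=
    (abel_L β).hasFDerivAt.norm_sq
  have h2 := (h1.const_add u).const_mul (-(1 / 2) : ℝ)
  have h3 := Complex.ofRealCLM.hasFDerivAt.comp x h2
  have e2 : (fun x : Fin (2 * m) → ℝ => ((-(u + ‖abel_L β x‖ ^ 2) / 2 : ℝ) : ℂ)) =
      ⇑Complex.ofRealCLM ∘ fun x : Fin (2 * m) → ℝ => -(1 / 2) * (u + ‖abel_L β x‖ ^ 2) := by
    funext y
    show _ = (((-(1 / 2) * (u + ‖abel_L β y‖ ^ 2) : ℝ)) : ℂ)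
    congr 1
    ring
  rw [e2]
  refine h3.congr_fderiv ?_
  ext v
  show (((-(1 / 2) * ((2 : ℕ) • (inner ℝ (abel_L β x) (abel_L β v) : ℝ)) : ℝ)) : ℂ) =
    ((-(inner ℝ (abel_L β x) (abel_L β v)) : ℝ) : ℂ)
  congr 1
  rw [nsmul_eq_mul]
  push_cast
  ring

theorem abel_inner (v w : E m) : inner ℝ v w = (inner ℂ v w).re := by
  rw [PiLp.inner_apply, PiLp.inner_apply, Complex.re_sum]
  refine Finset.sum_congr rfl fun k _ => ?_
  rw [Complex.inner, RCLike.inner_apply, mul_comm]

/-- the horizontal derivative in the direction `b` -/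
def abel_D (φ : Pt m → ℂ) (p : Pt m) : E m →ₗ[ℝ] ℂ where
  toFun b := fderiv ℝ φ p (-(inner ℂ p.2 b), b)
  map_add' a b := by
    rw [← map_add]
    congr 1
    refine Prod.ext ?_ rfl
    show -(inner ℂ p.2 (a + b)) = -(inner ℂ p.2 a) + -(inner ℂ p.2 b)
    rw [inner_add_right]
    ring
  map_smul' r b := by
    rw [← map_smul]
    congr 1
    refine Prod.ext ?_ rfl
    show -(inner ℂ p.2 (r • b)) = r • -(inner ℂ p.2 b)
    rw [inner_smul_right_eq_smul, smul_neg]

theorem abel_D_apply (φ : Pt m → ℂ) (p : Pt m) (b : E m) :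
    abel_D φ p b = fderiv ℝ φ p (-(inner ℂ p.2 b), b) := rfl

theorem abel_D_XX (φ : Pt m → ℂ) (p : Pt m) (k : Fin m) :
    abel_D φ p (ek k) = XX k φ p := by
  rw [abel_D_apply]
  unfold XX ek
  rw [EuclideanSpace.inner_single_right, one_mul]

theorem abel_D_YY (φ : Pt m → ℂ) (p : Pt m) (k : Fin m) :
    abel_D φ p (Complex.I • ek k) = YY k φ p := by
  rw [abel_D_apply]
  unfold YY ek
  rw [inner_smul_right, EuclideanSpace.inner_single_right, one_mul]

/-- a function without central derivative does not depend on the central variable -/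
theorem abel_const {φ : Pt m → ℂ} (hφ : ContDiffOn ℝ 2 φ (SD m))
    (h0 : ∀ p ∈ SD m, pd (Complex.I, 0) φ p = 0) (p : Pt m) (hp : p ∈ SD m) (r : ℝ) :
    φ (p.1 + (r : ℂ) * Complex.I, p.2) = φ p := by
  have hmem : ∀ s : ℝ, ((p.1 + (s : ℂ) * Complex.I, p.2) : Pt m) ∈ SD m := by
    intro s
    have : hgt ((p.1 + (s : ℂ) * Complex.I, p.2) : Pt m) = hgt p := by
      unfold hgt; simp
    show 0 < hgt _
    rw [this]
    exact hp
  have hd : ∀ s : ℝ, HasDerivAt (fun s : ℝ => φ (p.1 + (s : ℂ) * Complex.I, p.2)) 0 s := by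
    intro s
    have h1 : HasFDerivAt φ (fderiv ℝ φ (p.1 + (s : ℂ) * Complex.I, p.2))
        (p.1 + (s : ℂ) * Complex.I, p.2) :=
      ((hφ.contDiffAt (isOpen_SD.mem_nhds (hmem s))).differentiableAt
        (by norm_num)).hasFDerivAt
    have h2 : HasDerivAt (fun s : ℝ => ((p.1 + (s : ℂ) * Complex.I, p.2) : Pt m))
        ((Complex.I, 0) : Pt m) s := by
      refine HasDerivAt.prodMk ?_ (hasDerivAt_const _ _)
      have h3 : HasDerivAt (fun s : ℝ => (s : ℂ)) 1 s := Complex.ofRealCLM.hasDerivAt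
      have h4 := (h3.mul_const Complex.I).const_add p.1
      rwa [one_mul] at h4
    have h5 := h1.comp_hasDerivAt s h2
    have h6 : fderiv ℝ φ (p.1 + (s : ℂ) * Complex.I, p.2) (Complex.I, 0) = 0 := h0 _ (hmem s)
    rw [h6] at h5
    exact h5
  have h7 := is_const_of_deriv_eq_zero (fun s => (hd s).differentiableAt)
    (fun s => (hd s).deriv) r 0
  simp only [Complex.ofReal_zero, zero_mul, add_zero] at h7
  exact h7

/-- product integral over the cell -/
theorem abel_lint {F : (Fin (2 * m) → ℝ) → ENNReal} (hF : Measurable F) :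
    ∫⁻ x in Set.Icc (0 : (Fin (2 * m) → ℝ) × ℝ) 1, F x.1 =
      ∫⁻ x in Set.Icc (0 : Fin (2 * m) → ℝ) 1, F x := by
  have h1 : Set.Icc (0 : (Fin (2 * m) → ℝ) × ℝ) 1 =
      Set.Icc (0 : Fin (2 * m) → ℝ) 1 ×ˢ Set.Icc (0 : ℝ) 1 := (Set.Icc_prod_Icc _ _ _ _).symm
  rw [h1, Measure.volume_eq_prod, ← Measure.prod_restrict]
  have h2 := lintegral_prod_mul (μ := volume.restrict (Set.Icc (0 : Fin (2 * m) → ℝ) 1))
    (ν := volume.restrict (Set.Icc (0 : ℝ) 1)) (f := F) (g := fun _ => 1) hF.aemeasurable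
    aemeasurable_const
  simp only [mul_one] at h2
  rw [h2]
  simp

theorem abel_int (F : (Fin (2 * m) → ℝ) → ℂ) :
    ∫ x in Set.Icc (0 : (Fin (2 * m) → ℝ) × ℝ) 1, F x.1 =
      ∫ x in Set.Icc (0 : Fin (2 * m) → ℝ) 1, F x := by
  have h1 : Set.Icc (0 : (Fin (2 * m) → ℝ) × ℝ) 1 =
      Set.Icc (0 : Fin (2 * m) → ℝ) 1 ×ˢ Set.Icc (0 : ℝ) 1 := (Set.Icc_prod_Icc _ _ _ _).symm
  rw [h1, Measure.volume_eq_prod]
  have h2 := setIntegral_prod_mul (μ := (volume : Measure (Fin (2 * m) → ℝ)))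
    (ν := (volume : Measure ℝ)) F (fun _ => (1 : ℂ)) (Set.Icc (0 : Fin (2 * m) → ℝ) 1)
    (Set.Icc (0 : ℝ) 1)
  simp only [mul_one] at h2
  rw [h2]
  simp

/-- the real orthonormal basis -/
def abel_dir (K : Fin (2 * m)) : E m :=
  if (finProdFinEquiv.symm K).1 = 0 then ek (finProdFinEquiv.symm K).2
  else Complex.I • ek (finProdFinEquiv.symm K).2

theorem abel_sum_dir (f : E m → ℝ) : ∑ K : Fin (2 * m), f (abel_dir K) =
    ∑ k : Fin m, (f (ek k) + f (Complex.I • ek k)) := by
  have h1 : ∑ K : Fin (2 * m), f (abel_dir K) =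
      ∑ q : Fin 2 × Fin m, f (if q.1 = 0 then ek q.2 else Complex.I • ek q.2) := by
    rw [← Equiv.sum_comp (finProdFinEquiv (m := 2) (n := m)).symm]
    rfl
  rw [h1, Fintype.sum_prod_type, Fin.sum_univ_two, ← Finset.sum_add_distrib]
  refine Finset.sum_congr rfl fun k _ => ?_
  simp

end

theorem st_ABEL : ST_ABEL := by
  intro m N β c δ hC hdual φ hφ hper hcen u hu hmean
  have hmem : ∀ (x : Fin (2 * m) → ℝ) (t : ℝ), cellpt β c (x, t) u ∈ SD m :=
    fun x t => abel_cellpt_mem β c t hu x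
  set G : (Fin (2 * m) → ℝ) → ℂ := fun x => φ (cellpt β c (x, 0) u) with hGdef
  -- independence of the central variable
  have hGt : ∀ (x : Fin (2 * m) → ℝ) (t : ℝ), φ (cellpt β c (x, t) u) = G x := by
    intro x t
    have h1 := abel_const hφ hcen (cellpt β c (x, 0) u) (hmem x 0) (c * t)
    rw [hGdef]
    simp only
    rw [← h1]
    congr 1
    rw [abel_cellpt, abel_cellpt]
    refine Prod.ext ?_ rfl
    push_cast
    ring
  have hG : ContDiff ℝ 1 G :=
    (hφ.of_le (by norm_num)).comp_contDiff (abel_contDiff β c 0 u) (fun x => hmem x 0)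
  have hp : ∀ i x, G (x + Pi.single i 1) = G x := by
    intro i x
    obtain ⟨a, ha⟩ := (hC.lat (β i)).2 ⟨Pi.single i 1, by
      rw [Finset.sum_eq_single i]
      · simp
      · intro j _ hj
        simp [hj]
      · intro h
        exact absurd (Finset.mem_univ i) h⟩
    have h1 := hper a (β i) ha (cellpt β c (x, 0) u) (hmem x 0)
    have h2 : hgt (act (T a (β i)) (cellpt β c (x, 0) u)) = u := by
      rw [hgt_T (hC.norm _ _ ha), hgt_cellpt]
    have h3 : (act (T a (β i)) (cellpt β c (x, 0) u)).2 = abel_L β (x + Pi.single i 1) := by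
      rw [act_T, map_add, abel_L_single, abel_cellpt]
    have hc0 : c ≠ 0 := hC.cpos.ne'
    have h4 : act (T a (β i)) (cellpt β c (x, 0) u) =
        cellpt β c (x + Pi.single i 1,
          (act (T a (β i)) (cellpt β c (x, 0) u)).1.im / c) u := by
      generalize act (T a (β i)) (cellpt β c (x, 0) u) = q at h2 h3 ⊢
      rw [abel_cellpt]
      refine Prod.ext ?_ h3
      unfold hgt at h2
      rw [h3] at h2
      apply Complex.ext
      · simp only [Complex.add_re, Complex.ofReal_re, Complex.mul_re, Complex.I_re, mul_zero,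
          Complex.ofReal_im, Complex.I_im, mul_one, sub_self, add_zero]
        linarith
      · simp only [Complex.add_im, Complex.ofReal_im, Complex.mul_im, Complex.ofReal_re,
          Complex.I_im, mul_one, Complex.I_re, mul_zero, add_zero, zero_add]
        field_simp
    rw [h4, hGt] at h1
    exact h1
  -- derivative
  have hdG : ∀ (x : Fin (2 * m) → ℝ) (t : ℝ) (i : Fin (2 * m)),
      fderiv ℝ G x (Pi.single i 1) = abel_D φ (cellpt β c (x, t) u) (β i) := by
    intro x t i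
    have e : G = fun x => φ (cellpt β c (x, t) u) := by
      funext y
      exact (hGt y t).symm
    have h1 : HasFDerivAt φ (fderiv ℝ φ (cellpt β c (x, t) u)) (cellpt β c (x, t) u) :=
      ((hφ.contDiffAt (isOpen_SD.mem_nhds (hmem x t))).differentiableAt
        (by norm_num)).hasFDerivAt
    have h2 := h1.comp x (abel_hasFDerivAt β c t u x)
    have h3 : fderiv ℝ G x = (fderiv ℝ φ (cellpt β c (x, t) u)).comp
        ((Complex.ofRealCLM.comp (-((innerSL ℝ (abel_L β x)).comp (abel_L β)))).prod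
        (abel_L β)) := by
      rw [e]
      exact h2.fderiv
    rw [h3, abel_D_apply]
    have h4 : (cellpt β c (x, t) u).2 = abel_L β x := by rw [abel_cellpt]
    have h5 : fderiv ℝ φ (cellpt β c (x, t) u) (Complex.I, 0) = 0 := hcen _ (hmem x t)
    rw [h4]
    have h6 : ((-(inner ℂ (abel_L β x) (β i)), β i) : Pt m) =
        ((-((inner ℂ (abel_L β x) (β i)).re : ℂ), β i) : Pt m) +
          (-(inner ℂ (abel_L β x) (β i)).im) • ((Complex.I, 0) : Pt m) := by
      refine Prod.ext ?_ ?_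
      · apply Complex.ext <;> simp
      · simp
    rw [h6, map_add, map_smul, h5, smul_zero, add_zero]
    show fderiv ℝ φ (cellpt β c (x, t) u) _ = _
    congr 1
    refine Prod.ext ?_ ?_
    · show ((-(inner ℝ (abel_L β x) (abel_L β (Pi.single i 1))) : ℝ) : ℂ) = _
      rw [abel_L_single, abel_inner]
      simp
    · exact abel_L_single β i
  -- the basis
  have hfr : Fintype.card (Fin (2 * m)) = Module.finrank ℝ (E m) := by
    have h1 := finrank_real_of_complex (E m)
    rw [h1]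
    simp
  let 𝔅 : Module.Basis (Fin (2 * m)) ℝ (E m) :=
    basisOfLinearIndependentOfCardEqFinrank' β hC.li hfr
  have h𝔅 : ∀ i, 𝔅 i = β i := fun i => by
    simp [𝔅]
  let C : Fin (2 * m) → Fin (2 * m) → ℝ := fun k i => 𝔅.repr (abel_dir k) i
  have hCs : ∀ k, ∑ i, C k i • β i = abel_dir k := by
    intro k
    have := 𝔅.sum_repr (abel_dir k)
    simp only [h𝔅] at this
    exact this
  have hdualC : ∀ ν : Fin (2 * m) → ℤ, ν ≠ 0 → δ ≤ ∑ k, (∑ i, C k i * (ν i : ℝ)) ^ 2 := by
    intro ν hν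
    let lam : E m →ₗ[ℝ] ℝ := 𝔅.constr ℝ (fun i => (ν i : ℝ))
    have hlam : ∀ i, lam (β i) = ν i := fun i => by
      rw [← h𝔅 i]
      exact 𝔅.constr_basis ℝ _ i
    have hlamd : ∀ k, ∑ i, C k i * (ν i : ℝ) = lam (abel_dir k) := by
      intro k
      rw [← hCs k, map_sum]
      simp only [map_smul, hlam, smul_eq_mul]
    let ξ : E m := WithLp.toLp 2 (fun k =>
      (⟨lam (ek k), lam (Complex.I • ek k)⟩ : ℂ))
    have hξ : ∀ v : E m, (inner ℂ ξ v).re = lam v := by
      intro v
      have h1 : v = ∑ k, ((v k).re • (ek k : E m) + (v k).im • (Complex.I • (ek k : E m))) := by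
        ext j
        simp only [ek, WithLp.ofLp_sum, Finset.sum_apply, PiLp.add_apply, PiLp.smul_apply,
          PiLp.single_apply]
        rw [Finset.sum_eq_single j]
        · simp
        · intro b _ hb
          simp [hb.symm]
        · intro h
          exact absurd (Finset.mem_univ j) h
      conv_rhs => rw [h1, map_sum]
      rw [PiLp.inner_apply, Complex.re_sum]
      refine Finset.sum_congr rfl fun k _ => ?_
      rw [map_add, map_smul, map_smul]
      simp only [ξ, RCLike.inner_apply, smul_eq_mul, Complex.mul_re, Complex.conj_re,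
        Complex.conj_im]
      ring
    have hξ0 : ξ ≠ 0 := by
      intro h0
      apply hν
      funext i
      have h1 := hξ (β i)
      rw [h0, inner_zero_left, hlam] at h1
      simp only [Complex.zero_re] at h1
      exact_mod_cast h1.symm
    have h2 := hdual ξ hξ0 (fun i => ⟨ν i, by rw [hξ, hlam]⟩)
    simp only [hlamd]
    rw [abel_sum_dir (fun b => lam b ^ 2)]
    refine h2.trans (le_of_eq ?_)
    rw [EuclideanSpace.norm_sq_eq]
    refine Finset.sum_congr rfl fun k _ => ?_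
    rw [← Complex.normSq_eq_norm_sq, Complex.normSq_apply]
    simp only [ξ]
    ring
  have hmean' : ∫ x in Set.Icc (0 : Fin (2 * m) → ℝ) 1, G x = 0 := by
    rw [← abel_int, ← hmean]
    refine integral_congr_ae (Filter.Eventually.of_forall fun x => ?_)
    exact (hGt x.1 x.2).symm
  have key := Pool.Agent.Helper77.Lor.cube hG hp C hdualC hmean'
  set GG : (Fin (2 * m) → ℝ) → ℝ := fun x =>
    ∑ k, ‖∑ i, (C k i : ℂ) * fderiv ℝ G x (Pi.single i 1)‖ ^ 2 with hGG
  have hpt : ∀ (x : Fin (2 * m) → ℝ) (t : ℝ),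
      ∑ k : Fin m, (‖XX k φ (cellpt β c (x, t) u)‖ ^ 2 + ‖YY k φ (cellpt β c (x, t) u)‖ ^ 2) =
        GG x := by
    intro x t
    have h1 : ∀ k, ∑ i, (C k i : ℂ) * fderiv ℝ G x (Pi.single i 1) =
        abel_D φ (cellpt β c (x, t) u) (abel_dir k) := by
      intro k
      rw [← hCs k, map_sum]
      refine Finset.sum_congr rfl fun i _ => ?_
      rw [map_smul, hdG x t i, Complex.real_smul]
    rw [hGG]
    simp only [h1]
    rw [abel_sum_dir (fun b => ‖abel_D φ (cellpt β c (x, t) u) b‖ ^ 2)]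
    simp only [abel_D_XX, abel_D_YY]
  have hGGc : Continuous GG := by
    rw [hGG]
    refine continuous_finsetSum _ fun k _ => ?_
    refine (Continuous.norm ?_).pow 2
    refine continuous_finsetSum _ fun i _ => ?_
    exact continuous_const.mul ((hG.continuous_fderiv one_ne_zero).clm_apply continuous_const)
  have i1 : IntegrableOn (fun x => ‖G x‖ ^ 2) (Set.Icc (0 : Fin (2 * m) → ℝ) 1) :=
    (hG.continuous.norm.pow 2).integrableOn_Icc
  have i2 : IntegrableOn GG (Set.Icc (0 : Fin (2 * m) → ℝ) 1) := hGGc.integrableOn_Icc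
  have l1 : cellInt β c (fun p => ENNReal.ofReal (‖φ p‖ ^ 2)) u =
      ENNReal.ofReal (∫ x in Set.Icc (0 : Fin (2 * m) → ℝ) 1, ‖G x‖ ^ 2) := by
    rw [ofReal_integral_eq_lintegral_ofReal i1
      (Filter.Eventually.of_forall fun x => by positivity), ← abel_lint
      (F := fun x => ENNReal.ofReal (‖G x‖ ^ 2))
      (hG.continuous.norm.pow 2).measurable.ennreal_ofReal]
    unfold cellInt
    refine lintegral_congr fun x => ?_
    show ENNReal.ofReal (‖φ (cellpt β c (x.1, x.2) u)‖ ^ 2) = _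
    rw [hGt]
  have l2 : cellInt β c (fun p => ENNReal.ofReal
      (∑ k : Fin m, (‖XX k φ p‖ ^ 2 + ‖YY k φ p‖ ^ 2))) u =
      ENNReal.ofReal (∫ x in Set.Icc (0 : Fin (2 * m) → ℝ) 1, GG x) := by
    rw [ofReal_integral_eq_lintegral_ofReal i2
      (Filter.Eventually.of_forall fun x => by rw [hGG]; positivity), ← abel_lint
      hGGc.measurable.ennreal_ofReal]
    unfold cellInt
    refine lintegral_congr fun x => ?_
    show ENNReal.ofReal (∑ k : Fin m, (‖XX k φ (cellpt β c (x.1, x.2) u)‖ ^ 2 +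
      ‖YY k φ (cellpt β c (x.1, x.2) u)‖ ^ 2)) = _
    rw [hpt]
  rw [l1, l2]
  rcases le_total 0 δ with hδ | hδ
  · rw [← ENNReal.ofReal_mul (by positivity)]
    exact ENNReal.ofReal_le_ofReal key
  · have : 4 * Real.pi ^ 2 * δ ≤ 0 := by
      have h1 : 0 ≤ 4 * Real.pi ^ 2 := by positivity
      nlinarith
    rw [ENNReal.ofReal_of_nonpos this, zero_mul]
    exact zero_le

end Pool.Agent.Helper19.Un
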